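import Mathlib
import Pool.Agent.Helper643.CGDefs
import Pool.Agent.Helper643.CGNc3

/-!
The number of bits needed by the conjugate gradient method to reach normwise backward error `ε`
within `n` steps: the growth in `n`, `κ` and `ε` for all values of the parameters, with a phase
transition at the critical order
`ncrit κ ε = √k (1 + log₂ (1 / (ε k^(3/4))))`, `k = min (κ, ε^(-4/3))`.

`tstar brk n κ ε` is the least precision `t` which is sufficient for all symmetric positive
definite systems of order `n` with condition number at most `κ` (see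
`Pool.Agent.Helper643.CGDefs`). For `brk` false a run ends when it has made `n` steps or when
the next direction necessarily has `pᵀ A p = 0` (zero residual); for `brk` true a run also
ends (breaks down) as soon as some admissible computed value of `pᵀ A p` is zero.
-/

namespace Pool.Agent.Results.MP_02bbae_an.PrecisionCGComplete

open Pool.Agent.Helper643.CG
open scoped ENNReal
open Real (logb)

theorem result : ∃ C : ℝ, 0 < C ∧ ∀ (n : ℕ) (κ : ℝ≥0∞) (ε : ℝ), 1 ≤ n → 1 ≤ κ → 0 < ε → ε < 1 →
    -- if a computed `pᵀ A p = 0` is a failure, no precision is sufficient for `κ = ∞`, `n ≥ 2`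
    (2 ≤ n → κ = ⊤ → tstar True n κ ε = ⊤) ∧
    -- in all other cases (`Λ` is the additional term caused by breakdowns)
    ∀ (brk : Prop) (Λ : ℝ), (¬ brk ∧ Λ = 0 ∨ brk ∧ n = 1 ∧ Λ = 0 ∨
        brk ∧ 2 ≤ n ∧ κ ≠ ⊤ ∧ Λ = logb 2 κ.toReal) →
      -- (1) `t*` is finite; the general upper bound
      (tstar brk n κ ε ≠ ⊤ ∧
        (tstar brk n κ ε : ℝ≥0∞) ≤
          ENNReal.ofReal (C * (logb 2 (2/ε) + n * logb 2 (2 + ncrit κ ε / n) + Λ))) ∧
      -- (2) the upper bound above the critical order
      (C * ncrit κ ε ≤ n →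
        (tstar brk n κ ε : ℝ≥0∞) ≤
          ENNReal.ofReal (C * (logb 2 (2/ε) + logb 2 n + Λ))) ∧
      -- (3) for `ε ≤ 1/2` both upper bounds are sharp: (1) below and (2) above the critical order
      (ε ≤ 1/2 →
        ENNReal.ofReal ((logb 2 (2/ε) + logb 2 n + Λ) / C) ≤ (tstar brk n κ ε : ℝ≥0∞) ∧
        (C * n ≤ ncrit κ ε →
          ENNReal.ofReal ((logb 2 (2/ε) + n * logb 2 (2 + ncrit κ ε / n) + Λ) / C) ≤
            (tstar brk n κ ε : ℝ≥0∞))) ∧
      -- (4) lower bounds for all `ε < 1`
      ENNReal.ofReal (logb 2 (n / Real.log (3 / (1 - ε)))) ≤ (tstar brk n κ ε : ℝ≥0∞) ∧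
      ENNReal.ofReal (Λ / C) ≤ (tstar brk n κ ε : ℝ≥0∞) := by
  refine ⟨720000, by norm_num, ?_⟩
  intro n κ ε hn hκ hε0 hε1
  have hn1 : (1:ℝ) ≤ n := by exact_mod_cast hn
  have hn0 : (0:ℝ) < n := by linarith
  have hln : 0 ≤ logb 2 (n:ℝ) := Real.logb_nonneg (by norm_num) hn1
  have hnc1 := one_le_ncrit hκ hε0 hε1
  have hq0 : 0 ≤ ncrit κ ε / n := by positivity
  have hlq := logb_two_add hq0
  have hnq : (n:ℝ) ≤ n * logb 2 (2 + ncrit κ ε / n) := by nlinarith
  have hL1 : 1 ≤ logb 2 (2/ε) := one_le_logb (by rw [le_div_iff₀ hε0]; linarith)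
  have hLsplit : logb 2 (2/ε) = 1 + logb 2 (1/ε) := by
    have : 2/ε = 2 * (1/ε) := by ring
    rw [this, Real.logb_mul (by norm_num) (by positivity), Real.logb_self_eq_one (by norm_num)]
  refine ⟨?_, ?_⟩
  · rintro hn2 rfl
    exact brk_top1 hn2 hε1
  · intro brk Λ hΛ
    -- the lower bound caused by breakdowns
    have hΛ0 : 0 ≤ Λ := by
      rcases hΛ with ⟨_, h⟩ | ⟨_, _, h⟩ | ⟨_, _, htop, h⟩
      · exact h.ge
      · exact h.ge
      · rw [h]
        apply Real.logb_nonneg (by norm_num)
        refine (ENNReal.ofReal_le_iff_le_toReal htop).1 ?_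
        simpa using hκ
    have hlow : ENNReal.ofReal (Λ / 5) ≤ (tstar brk n κ ε : ℝ≥0∞) := by
      rcases hΛ with ⟨_, h⟩ | ⟨_, _, h⟩ | ⟨hb, hn2, htop, h⟩
      · rw [h]; simp
      · rw [h]; simp
      · have hκ2 : 1 ≤ κ.toReal := by
          refine (ENNReal.ofReal_le_iff_le_toReal htop).1 ?_
          simpa using hκ
        have hb' : brk = True := propext ⟨fun _ => trivial, fun _ => hb⟩
        rw [h, hb']
        exact lower_brk1 hn2 hε1 hκ2 (ENNReal.ofReal_toReal htop).le
    -- common form for `n ≥ 2`
    have hF : 2 ≤ n → ∃ F : ℝ, 2 ≤ F ∧ (brk → κ ≤ ENNReal.ofReal F) ∧ logb 2 F ≤ 1 + Λ := by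
      intro hn2
      rcases hΛ with ⟨hb, h⟩ | ⟨_, h1, _⟩ | ⟨hb, _, htop, h⟩
      · exact ⟨2, le_rfl, fun h' => absurd h' hb, by
          rw [Real.logb_self_eq_one (by norm_num)]; linarith⟩
      · omega
      · rcases le_total κ.toReal 2 with h2 | h2
        · refine ⟨2, le_rfl, fun _ => ?_, by
            rw [Real.logb_self_eq_one (by norm_num)]; linarith⟩
          rw [← ENNReal.ofReal_toReal htop]
          exact ENNReal.ofReal_le_ofReal h2
        · exact ⟨κ.toReal, h2, fun _ => (ENNReal.ofReal_toReal htop).ge, by rw [h]; linarith⟩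
    have hcomb : ∀ {a b x : ℝ} {y : ℝ≥0∞}, ENNReal.ofReal a ≤ y → ENNReal.ofReal b ≤ y →
        x ≤ max a b → ENNReal.ofReal x ≤ y := by
      intro a b x y h1 h3 h4
      rcases le_total a b with h | h
      · rw [max_eq_right h] at h4
        exact (ENNReal.ofReal_le_ofReal h4).trans h3
      · rw [max_eq_left h] at h4
        exact (ENNReal.ofReal_le_ofReal h4).trans h1
    -- the general upper bound
    have hup : (tstar brk n κ ε : ℝ≥0∞) ≤
        ENNReal.ofReal (720000 * (logb 2 (2/ε) + n * logb 2 (2 + ncrit κ ε / n) + Λ)) := by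
      rcases le_or_gt ε (1/2) with hε | hε
      · have hL' : 1 ≤ logb 2 (1/ε) := one_le_logb (by rw [le_div_iff₀ hε0]; linarith)
        rcases Nat.lt_or_ge n 2 with hn2 | hn2
        · have hn' : n = 1 := by omega
          subst hn'
          refine (upper_one hε0 hε).trans (ENNReal.ofReal_le_ofReal ?_)
          linarith
        · obtain ⟨F, hF2, hFb, hFl⟩ := hF hn2
          refine (upper_all hn2 hκ hε0 hε hF2 hFb).trans (ENNReal.ofReal_le_ofReal ?_)
          linarith
      · refine (tstar_mono (fun t ht => Good.mono_eps hε.le ht)).trans ?_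
        have e1 : logb 2 (1/(1/2:ℝ)) = 1 := by
          rw [show 1/(1/2:ℝ) = 2 by norm_num, Real.logb_self_eq_one (by norm_num)]
        rcases Nat.lt_or_ge n 2 with hn2 | hn2
        · have hn' : n = 1 := by omega
          subst hn'
          refine (upper_one (by norm_num) le_rfl).trans (ENNReal.ofReal_le_ofReal ?_)
          rw [e1]
          linarith
        · obtain ⟨F, hF2, hFb, hFl⟩ := hF hn2
          refine (upper_all hn2 hκ (by norm_num) le_rfl hF2 hFb).trans
            (ENNReal.ofReal_le_ofReal ?_)
          rw [e1]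
          have h1 := ncrit_max hκ (by norm_num : (0:ℝ) < 1/2) le_rfl
          have h2 : ncrit κ (1/2) ≤ 4 := by
            rcases le_total κ 2 with h | h
            · have := (ncrit_small hκ h (by norm_num : (0:ℝ) < 1/2) le_rfl).2
              rw [e1] at this
              linarith
            · have := ncrit_crude h (by norm_num : (0:ℝ) < 1/2) le_rfl
              norm_num at this
              linarith
          have h3 := one_le_ncrit hκ (by norm_num : (0:ℝ) < 1/2) (by norm_num)
          have h4 : logb 2 (2 + ncrit κ (1/2) / n) ≤ 3 := by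
            have h5 : ncrit κ (1/2) / n ≤ 4 := by
              rw [div_le_iff₀ hn0]; nlinarith
            have h6 : 0 ≤ ncrit κ (1/2) / n := by positivity
            rw [Real.logb_le_iff_le_rpow (by norm_num) (by positivity)]
            norm_num
            linarith
          have h5 : (n:ℝ) * logb 2 (2 + ncrit κ (1/2) / n) ≤ n * 3 := by gcongr
          linarith
    refine ⟨⟨?_, hup⟩, ?_, ?_, ?_, ?_⟩
    · intro htop
      rw [htop, ENat.toENNReal_top, top_le_iff] at hup
      exact ENNReal.ofReal_ne_top hup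
    · intro h
      have hn2 : 2 ≤ n := by
        have : (2:ℝ) ≤ n := by linarith
        exact_mod_cast this
      obtain ⟨F, hF2, hFb, hFl⟩ := hF hn2
      rcases le_or_gt ε (1/2) with hε | hε
      · refine (upper_large_all hn2 hκ hε0 hε hF2 hFb (by linarith)).trans
          (ENNReal.ofReal_le_ofReal ?_)
        have hL' : 1 ≤ logb 2 (1/ε) := one_le_logb (by rw [le_div_iff₀ hε0]; linarith)
        linarith
      · refine (tstar_mono (fun t ht => Good.mono_eps hε.le ht)).trans ?_
        have e1 : logb 2 (1/(1/2:ℝ)) = 1 := by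
          rw [show 1/(1/2:ℝ) = 2 by norm_num, Real.logb_self_eq_one (by norm_num)]
        have h2 : ncrit κ (1/2) ≤ 4 := by
          rcases le_total κ 2 with h | h
          · have := (ncrit_small hκ h (by norm_num : (0:ℝ) < 1/2) le_rfl).2
            rw [e1] at this
            linarith
          · have := ncrit_crude h (by norm_num : (0:ℝ) < 1/2) le_rfl
            norm_num at this
            linarith
        refine (upper_large_all hn2 hκ (by norm_num) le_rfl hF2 hFb (by linarith)).trans
          (ENNReal.ofReal_le_ofReal ?_)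
        rw [e1]
        linarith
    · intro hε
      have hL' : 1 ≤ logb 2 (1/ε) := one_le_logb (by rw [le_div_iff₀ hε0]; linarith)
      refine ⟨?_, ?_⟩
      · refine hcomb hlow (lower_small1 brk hn hκ hε0 hε) ?_
        rcases le_total Λ (logb 2 (1/ε) + logb 2 n) with h | h
        · refine le_trans ?_ (le_max_right _ _); linarith
        · refine le_trans ?_ (le_max_left _ _); linarith
      · intro h
        refine hcomb hlow (lower_all brk hn hκ hε0 hε (by linarith)) ?_
        rcases le_total Λ (logb 2 (1/ε) + n * logb 2 (2 + ncrit κ ε / n)) with h | h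
        · refine le_trans ?_ (le_max_right _ _); linarith
        · refine le_trans ?_ (le_max_left _ _); linarith
    · exact lower_n brk hn hκ hε0 hε1
    · refine le_trans (ENNReal.ofReal_le_ofReal ?_) hlow
      linarith

end Pool.Agent.Results.MP_02bbae_an.PrecisionCGComplete
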