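import Mathlib
import Pool.Agent.Helper643.CGDefs
import Pool.Agent.Helper643.CGNc

/-!
The number of bits needed by the conjugate gradient method to reach normwise backward error `ε`
within `n` steps: the growth in `n`, `κ` and `ε`, with a phase transition at the critical order
`ncrit κ ε = √k (1 + log₂ (1 / (ε k^(3/4))))`, `k = min (κ, ε^(-4/3))`.

`tstar brk n κ ε` is the least precision `t` which is sufficient for all symmetric positive
definite systems of order `n` with condition number at most `κ` (see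
`Pool.Agent.Helper643.CGDefs`). For `brk` false a run ends when it has made `n` steps or when
the next direction necessarily has `pᵀ A p = 0` (zero residual); for `brk` true a run also
ends (breaks down) as soon as some admissible computed value of `pᵀ A p` is zero.
-/

namespace Pool.Agent.Results.MP_02bbae_an.PrecisionCGSharp

open Pool.Agent.Helper643.CG
open scoped ENNReal
open Real (logb)

theorem result : ∃ C : ℝ, 0 < C ∧ ∀ (n : ℕ) (κ : ℝ≥0∞) (ε : ℝ), 2 ≤ n → 2 ≤ κ → 0 < ε → ε ≤ 1/2 →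
    -- if a computed `pᵀ A p = 0` is a failure, no precision is sufficient for `κ = ∞`
    (κ = ⊤ → tstar True n κ ε = ⊤) ∧
    -- in all other cases (`Λ` is the additional term caused by breakdowns)
    ∀ (brk : Prop) (Λ : ℝ), (¬ brk ∧ Λ = 0 ∨ brk ∧ κ ≠ ⊤ ∧ Λ = logb 2 κ.toReal) →
      -- (1) general bounds; in particular `t*(n, ∞, ε)` is finite
      (tstar brk n κ ε ≠ ⊤ ∧
        ENNReal.ofReal ((logb 2 (1/ε) + logb 2 n + Λ) / C) ≤ (tstar brk n κ ε : ℝ≥0∞) ∧
        (tstar brk n κ ε : ℝ≥0∞) ≤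
          ENNReal.ofReal (C * (logb 2 (1/ε) + n * logb 2 (2 + ncrit κ ε / n) + Λ))) ∧
      -- (2) below the critical order the upper bound is sharp
      (C * n ≤ ncrit κ ε →
        ENNReal.ofReal ((logb 2 (1/ε) + n * logb 2 (2 + ncrit κ ε / n) + Λ) / C) ≤
          (tstar brk n κ ε : ℝ≥0∞)) ∧
      -- (3) above the critical order the lower bound is sharp
      ((κ ≤ ENNReal.ofReal (1/ε) ∧ C * ncrit κ ε ≤ n) ∨
          C * (ncrit κ ε * logb 2 (1/ε) ^ (4/3 : ℝ)) ≤ n →
        (tstar brk n κ ε : ℝ≥0∞) ≤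
          ENNReal.ofReal (C * (logb 2 (1/ε) + logb 2 n + Λ))) := by
  refine ⟨40000, by norm_num, ?_⟩
  intro n κ ε hn hκ hε0 hε
  have h2 : (2:ℝ) ≤ n := by exact_mod_cast hn
  have hL : 1 ≤ logb 2 (1/ε) := one_le_logb (by rw [le_div_iff₀ hε0]; linarith)
  have hln : 1 ≤ logb 2 n := one_le_logb h2
  obtain ⟨s, ℓ, hs1, _, hℓ0, _, hnc, _⟩ := ncrit_facts hκ hε0 hε
  have hnc1 : 1 ≤ ncrit κ ε := by rw [hnc]; nlinarith
  have hq0 : 0 ≤ ncrit κ ε / n := by positivity
  have hlq := logb_two_add hq0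
  have hnq : 0 ≤ (n:ℝ) * logb 2 (2 + ncrit κ ε / n) := by positivity
  have hcomb : ∀ {a b x : ℝ} {y : ℝ≥0∞}, ENNReal.ofReal a ≤ y → ENNReal.ofReal b ≤ y →
      x ≤ max a b → ENNReal.ofReal x ≤ y := by
    intro a b x y h1 h3 h4
    rcases le_total a b with h | h
    · rw [max_eq_right h] at h4
      exact (ENNReal.ofReal_le_ofReal h4).trans h3
    · rw [max_eq_left h] at h4
      exact (ENNReal.ofReal_le_ofReal h4).trans h1
  refine ⟨?_, ?_⟩
  · rintro rfl
    exact brk_top hn hε
  · intro brk Λ hΛ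
    -- common form
    obtain ⟨F, hF, hbrk, hΛF, hlow⟩ : ∃ F : ℝ, 1 ≤ F ∧ (brk → κ ≤ ENNReal.ofReal F) ∧
        logb 2 F = Λ ∧ ENNReal.ofReal (Λ / 5) ≤ (tstar brk n κ ε : ℝ≥0∞) := by
      rcases hΛ with ⟨hb, hΛ⟩ | ⟨hb, htop, hΛ⟩
      · refine ⟨1, le_rfl, fun h => absurd h hb, by rw [hΛ, Real.logb_one], ?_⟩
        rw [hΛ]; simp
      · have hκr : ENNReal.ofReal κ.toReal = κ := ENNReal.ofReal_toReal htop
        have hκ2 : 2 ≤ κ.toReal := by
          refine (ENNReal.ofReal_le_iff_le_toReal htop).1 ?_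
          simpa using hκ
        refine ⟨κ.toReal, by linarith, fun _ => hκr.ge, hΛ.symm, ?_⟩
        have hb' : brk = True := propext ⟨fun _ => trivial, fun _ => hb⟩
        rw [hΛ, hb']
        exact lower_brk (ε := ε) hn hε (F := κ.toReal) (by linarith) hκr.le
    have hΛ0 : 0 ≤ Λ := by rw [← hΛF]; exact Real.logb_nonneg (by norm_num) hF
    have hup := upper_ncrit (brk := brk) hn hκ hε0 hε hF hbrk
    rw [hΛF] at hup
    refine ⟨⟨?_, ?_, ?_⟩, ?_, ?_⟩
    · intro htop
      rw [htop, ENat.toENNReal_top, top_le_iff] at hup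
      exact ENNReal.ofReal_ne_top hup
    · refine hcomb hlow (lower_small brk hn hκ hε0 hε) ?_
      rcases le_total Λ (logb 2 (1/ε) + logb 2 n) with h | h
      · refine le_trans ?_ (le_max_right _ _); linarith
      · refine le_trans ?_ (le_max_left _ _); linarith
    · exact hup
    · intro h
      refine hcomb hlow (lower_ncrit brk hn hκ hε0 hε (by linarith)) ?_
      rcases le_total Λ (logb 2 (1/ε) + n * logb 2 (2 + ncrit κ ε / n)) with h | h
      · refine le_trans ?_ (le_max_right _ _); linarith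
      · refine le_trans ?_ (le_max_left _ _); linarith
    · intro h
      have := upper_large_ncrit (brk := brk) hn hκ hε0 hε hF hbrk (by
        rcases h with ⟨h1, h3⟩ | h1
        · left; exact ⟨h1, by linarith⟩
        · right
          have : 0 ≤ ncrit κ ε * logb 2 (1/ε) ^ (4/3 : ℝ) := by positivity
          linarith)
      rw [hΛF] at this
      exact this.trans (ENNReal.ofReal_le_ofReal (by linarith))

end Pool.Agent.Results.MP_02bbae_an.PrecisionCGSharp
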